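import Pool.Agent.N358.DR.Main

/-!
# Sparsity of expansions of algebraic numbers: comparison inside the field

No hypothesis is assumed.  Let `x` be a real algebraic number, `b ≥ 2`, and let `y` be an element of
`ℚ(x)` such that `b ^ s y` is an algebraic integer for some `s`.  Let `x = ∑ g_k b ^ (-k)` with
integers `|g_k| ≤ G` (for instance the usual digits, or signed digits), and consider a nontrivial
linear relation `q_0 g_k + … + q_m g_{k+m} = e` with integer coefficients. If it fails for
`F (n)` of the `k` in `[1, n]`, then the number of `k` in `[1, n]` for which the `k`-th and the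
`(k + 1)`-st digit of `y` in base `b` are neither both `0` nor both `b - 1` is at most
`C (1 + F (C n)) ^ C`, where `C` depends only on `x, y, b, G` and the relation.

Examples: `x = y = √2`, `b = 2`, the usual digits `b_k` and the relation `b_{k+t} = b_k`: the number of
digit changes up to `n` is at most `C (1 + F (C n)) ^ C`, where `F (n)` is the number of `k ≤ n` with
`b_{k+t} ≠ b_k`. So few exceptions to periodicity force few changes. With the relation `g_k = 0`
and signed digits: all numbers `y` of `ℚ(x)` which are integral outside of `b` have at most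
polynomially more places with digits which are not locally constant `0` or `b - 1` than `x`, hence
all of them which generate `ℚ(x)` are equally sparse, up to powers and linear scaling.

Proof.  Let `z` be an algebraic integer and `p` a prime not dividing `b`. If `p z` has a sparse
expansion, with variation `V`, then so has `z`: the polynomial `P` of the expansion of `p z`
satisfies, with `q = p ^ a` at least the degree, `P ^ q = ∑ D_i P ^ i` at `1 / b` with all `D_i`
divisible by `p`; the carries of this identity vanish outside of a set of size `≪ V ^ q`, and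
modulo `p` they are the partial sums of `P` at the places divided by `q` (Frobenius).  So the
nearest integers to `b ^ K p z` are divisible by `p` with few exceptions.  Hence the numbers which are
at most polynomially less sparse than `x` are a ring which contains `1 / b` and all algebraic
integers of `ℚ(x)`.
-/

set_option autoImplicit false

namespace Pool.Agent.Results.MP_0308e6_nt.ComparisonInTheField

open Finset IntermediateField

/-- the `k`-th digit of `y` after the point in base `b` -/
noncomputable def digit (b : ℕ) (y : ℝ) (k : ℕ) : ℤ := ⌊y * (b : ℝ) ^ k⌋ % (b : ℤ)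

/-- the number of `k` in `[1, n]` for which the `k`-th and the `(k + 1)`-st digit of `y` are neither
both `0` nor both `b - 1` -/
noncomputable def rough (b : ℕ) (y : ℝ) (n : ℕ) : ℕ :=
  ((Icc 1 n).filter (fun k => ¬ (digit b y k = 0 ∧ digit b y (k + 1) = 0) ∧
    ¬ (digit b y k = b - 1 ∧ digit b y (k + 1) = b - 1))).card

/-- the number of `k` in `[1, n]` for which the relation `q_0 g_k + … + q_m g_{k+m} = e` fails -/
noncomputable def failures (m : ℕ) (q : ℕ → ℤ) (e : ℤ) (g : ℕ → ℤ) (n : ℕ) : ℕ :=
  ((Icc 1 n).filter (fun k => ∑ j ∈ range (m + 1), q j * g (k + j) ≠ e)).card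

/-- The result. -/
theorem result (b : ℕ) (hb : 2 ≤ b) (x y : ℝ) (hx : IsAlgebraic ℚ x) (hy : y ∈ ℚ⟮x⟯)
    (hint : ∃ s : ℕ, IsIntegral ℤ ((b : ℝ) ^ s * y)) (G : ℤ) (m : ℕ) (q : ℕ → ℤ) (e : ℤ)
    (hq : ∃ j, j ≤ m ∧ q j ≠ 0) :
    ∃ C : ℕ, ∀ g : ℕ → ℤ, (∀ k, |g k| ≤ G) →
      HasSum (fun k : ℕ => (g k : ℝ) / (b : ℝ) ^ k) x →
        ∀ n : ℕ, rough b y n ≤ C * (1 + failures m q e g (C * n)) ^ C := by
  obtain ⟨s, hs⟩ := hint
  obtain ⟨C, hC⟩ := Pool.Agent.N358.DR.rough_le_fails b hb x hx y hy s hs G
    (Pool.Agent.N358.DR.relPoly m q) (Pool.Agent.N358.DR.relPoly_ne_zero m q hq) e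
  refine ⟨C, fun g hg hsum n => ?_⟩
  have h := hC g hg hsum n
  rw [Pool.Agent.N358.DR.fails_relPoly] at h
  exact h

/-- Example: the binary digits of `√2`. -/
theorem sqrt_two (m : ℕ) (q : ℕ → ℤ) (e : ℤ) (hq : ∃ j, j ≤ m ∧ q j ≠ 0) :
    ∃ C : ℕ, ∀ n : ℕ,
      ((Icc 1 n).filter (fun k => digit 2 (Real.sqrt 2) k ≠ digit 2 (Real.sqrt 2) (k + 1))).card ≤
        C * (1 + failures m q e (digit 2 (Real.sqrt 2)) (C * n)) ^ C := by
  have h1 : IsIntegral ℤ (Real.sqrt 2) := by
    refine ⟨Polynomial.X ^ 2 - Polynomial.C 2, Polynomial.monic_X_pow_sub_C 2 (by norm_num), ?_⟩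
    simp
  have halg : IsAlgebraic ℚ (Real.sqrt 2) :=
    (h1.isAlgebraic).extendScalars (algebraMap ℤ ℚ).injective_int
  obtain ⟨C, hC⟩ := result 2 le_rfl (Real.sqrt 2) (Real.sqrt 2) halg
    (mem_adjoin_simple_self ℚ _) ⟨0, by simpa using h1⟩ (|⌊Real.sqrt 2⌋| + (2 : ℕ)) m q e hq
  refine ⟨C, fun n => ?_⟩
  have h := hC (Pool.Agent.N358.DR.dg 2 (Real.sqrt 2))
    (Pool.Agent.N358.DR.abs_dg_le 2 le_rfl (Real.sqrt 2))
    (by simpa using Pool.Agent.N358.DR.hasSum_dg 2 le_rfl (Real.sqrt 2)) n
  have e1 : failures m q e (Pool.Agent.N358.DR.dg 2 (Real.sqrt 2)) (C * n) =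
      failures m q e (digit 2 (Real.sqrt 2)) (C * n) := by
    unfold failures
    congr 1
    apply Finset.filter_congr
    intro k hk
    have hk1 : 1 ≤ k := (Finset.mem_Icc.1 hk).1
    have e2 : ∀ j, Pool.Agent.N358.DR.dg 2 (Real.sqrt 2) (k + j) = digit 2 (Real.sqrt 2) (k + j) := by
      intro j
      unfold Pool.Agent.N358.DR.dg
      rw [if_neg (by omega)]
      rfl
    simp only [e2]
  rw [e1] at h
  refine le_trans (le_of_eq ?_) h
  unfold rough
  congr 1
  apply Finset.filter_congr
  intro k _
  have d : ∀ k, digit 2 (Real.sqrt 2) k = 0 ∨ digit 2 (Real.sqrt 2) k = 1 := by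
    intro k
    have n1 : 0 ≤ digit 2 (Real.sqrt 2) k := Int.emod_nonneg _ (by norm_num)
    have n2 : digit 2 (Real.sqrt 2) k < 2 := Int.emod_lt_of_pos _ (by norm_num)
    omega
  rcases d k with h0 | h0 <;> rcases d (k + 1) with h2 | h2 <;> rw [h0, h2] <;> norm_num

end Pool.Agent.Results.MP_0308e6_nt.ComparisonInTheField
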