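import Mathlib
import Pool.Agent.N503.DRFin

/-!
# The digits of an algebraic number are far from the digits of every rational number

The distance is counted in places (Hamming distance of the first `n` digits), and the bound is
uniform in the rational number and in the base.
-/

set_option autoImplicit false

namespace Pool.Agent.Results.MP_0308e6_nt.DistanceToRationals

open Finset Polynomial Filter Pool.Agent.N503.DR

/-- The `k`-th digit of the real number `x` after the point in base `b`: the remainder of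
`⌊b ^ k x⌋` modulo `b`. -/
noncomputable def dig (b : ℕ) (x : ℝ) (k : ℕ) : ℤ := ⌊x * (b : ℝ) ^ k⌋ % (b : ℤ)

/-- The places `k` with `1 ≤ k ≤ n` at which the digit of `x` in base `b` is not `s k`. -/
noncomputable def places (b : ℕ) (x : ℝ) (s : ℕ → ℤ) (n : ℕ) : Finset ℕ :=
  (Icc 1 n).filter fun k => dig b x k ≠ s k

/-- The numbers `k` with `1 ≤ k ≤ n` that are sums of at most `d` elements of `D`
(not necessarily different). -/
noncomputable def sums (D : Finset ℕ) (d n : ℕ) : Finset ℕ :=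
  open Classical in (Icc 1 n).filter fun k =>
    ∃ t : Multiset ℕ, (∀ j ∈ t, j ∈ D) ∧ t.card ≤ d ∧ t.sum = k

lemma dig_neg (y : ℚ) (hy : ¬ ∃ j : ℕ, y.den = 2 ^ j) (k : ℕ) :
    dig 2 ((-y : ℚ) : ℝ) k = 1 - dig 2 (y : ℝ) k := by
  unfold dig
  have h1 : ⌊((-y : ℚ) : ℝ) * ((2 : ℕ) : ℝ) ^ k⌋ = - ⌊(y : ℝ) * ((2 : ℕ) : ℝ) ^ k⌋ - 1 := by
    rw [Int.floor_eq_iff]
    have h2 := Int.floor_le ((y : ℝ) * ((2 : ℕ) : ℝ) ^ k)
    have h3 := Int.lt_floor_add_one ((y : ℝ) * ((2 : ℕ) : ℝ) ^ k)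
    have h4 : (⌊(y : ℝ) * ((2 : ℕ) : ℝ) ^ k⌋ : ℝ) ≠ (y : ℝ) * ((2 : ℕ) : ℝ) ^ k := by
      intro h5
      apply hy
      have h6 : y = (⌊(y : ℝ) * ((2 : ℕ) : ℝ) ^ k⌋ : ℚ) / ((2 ^ k : ℤ) : ℚ) := by
        have h7 : (y : ℝ) = ((((⌊(y : ℝ) * ((2 : ℕ) : ℝ) ^ k⌋ : ℚ) / ((2 ^ k : ℤ) : ℚ) : ℚ)) : ℝ) := by
          push_cast
          push_cast at h5
          rw [h5]; field_simp
        exact_mod_cast h7
      have h8 : ((y.den : ℕ) : ℤ) ∣ 2 ^ k := by
        have := Rat.den_dvd ⌊(y : ℝ) * ((2 : ℕ) : ℝ) ^ k⌋ (2 ^ k : ℤ)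
        rwa [Rat.divInt_eq_div, ← h6] at this
      have h9 : y.den ∣ 2 ^ k := by exact_mod_cast h8
      obtain ⟨j, _, hj⟩ := (Nat.dvd_prime_pow Nat.prime_two).1 h9
      exact ⟨j, hj⟩
    have h5 := lt_of_le_of_ne h2 h4
    push_cast
    push_cast at h5 h3
    constructor
    · linarith
    · linarith
  rw [h1]
  push_cast
  omega

lemma odd_part (y : ℚ) (hy : ¬ ∃ j : ℕ, y.den = 2 ^ j) :
    ∃ m : ℕ, m ∣ y.den ∧ m.Coprime 2 ∧ ¬ (m : ℤ) ∣ 1 := by
  obtain ⟨j, m, hm, h⟩ := Nat.exists_eq_two_pow_mul_odd y.den_nz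
  refine ⟨m, ⟨2 ^ j, by rw [h]; ring⟩, ?_, ?_⟩
  · exact (Nat.coprime_two_right).2 hm
  · intro h1
    have h2 : m = 1 := by
      have := Int.natAbs_dvd_natAbs.2 h1
      simpa using this
    exact hy ⟨j, by rw [h, h2, mul_one]⟩

/-- digits of a rational number give good approximations -/
lemma dig_rat (b : ℕ) (hb : 2 ≤ b) (y : ℚ) :
    ∃ y' : ℚ, y'.den = y.den ∧ ∀ n : ℕ,
      |∑ k ∈ Icc 1 n, (dig b (y : ℝ) k : ℝ) / (b : ℝ) ^ k - y'| ≤ 2 / (b : ℝ) ^ n := by
  refine ⟨y - ⌊y⌋, ?_, ?_⟩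
  · have := Rat.sub_intCast_den y ⌊y⌋
    exact this
  · intro n
    obtain ⟨h1, h2⟩ := digit_approx b hb (y : ℝ) n
    have h3 : ((y - ⌊y⌋ : ℚ) : ℝ) = Int.fract (y : ℝ) := by
      rw [Int.fract]; push_cast [Rat.floor_cast]; ring
    rw [h3, abs_sub_comm]
    have h4 : (0 : ℝ) ≤ 1 / (b : ℝ) ^ n := by positivity
    have h5 : 2 / (b : ℝ) ^ n = 1 / (b : ℝ) ^ n + 1 / (b : ℝ) ^ n := by ring
    have h6 : ∑ k ∈ Icc 1 n, (dig b (y : ℝ) k : ℝ) / (b : ℝ) ^ k =
      ∑ k ∈ Icc 1 n, (digit b (y : ℝ) k : ℝ) / (b : ℝ) ^ k := rfl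
    rw [h6, abs_le]
    constructor <;> linarith

lemma sqrt_two_root : aeval (√2 : ℝ) (X ^ 2 - C 2 : ℤ[X]) = 0 := by
  rw [map_sub, map_pow, aeval_X, aeval_C]
  norm_num

lemma sqrt_two_monic : (X ^ 2 - C 2 : ℤ[X]).Monic := monic_X_pow_sub_C 2 (by norm_num)

lemma sqrt_two_degree : (X ^ 2 - C 2 : ℤ[X]).natDegree = 2 := natDegree_X_pow_sub_C

theorem result :
    -- general theorem: roots of integer polynomials, all bases, all rational numbers
    (∀ (A : ℤ[X]) (ξ : ℝ), A ≠ 0 → aeval ξ A = 0 →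
      ∃ C : ℝ, 0 < C ∧ ∀ (b : ℕ) (y : ℚ) (s : ℕ → ℤ), 2 ≤ b →
        (∃ m : ℕ, m ∣ y.den ∧ m.Coprime b ∧ ¬ (m : ℤ) ∣ A.leadingCoeff) →
        (∀ k, |s k| ≤ b) →
        HasSum (fun k : ℕ => (s (k + 1) : ℝ) / (b : ℝ) ^ (k + 1)) (y : ℝ) → ∀ n : ℕ,
        (n : ℝ) * Real.log b ≤ C * ((((places b ξ s n).card : ℝ) ^ A.natDegree + 1) *
          Real.log (b * y.den)) ∧
        (n : ℝ) * Real.log b ≤ C * (((sums (places b ξ s n) A.natDegree n).card + 1) *
          (Real.log (b * y.den) + Real.log (2 + ((places b ξ s n).card : ℝ) ^ A.natDegree /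
            ((sums (places b ξ s n) A.natDegree n).card + 1))))) ∧
    -- algebraic integers and eventually periodic sequences of digits
    (∀ (A : ℤ[X]) (ξ : ℝ), A.Monic → aeval ξ A = 0 →
      ∃ C : ℝ, 0 < C ∧ ∀ (b : ℕ) (s : ℕ → ℤ) (p r : ℕ), 2 ≤ b → 1 ≤ p →
        (∀ k, 0 ≤ s k ∧ s k < b) → (∀ k, r < k → s (k + p) = s k) →
        (∃ k, r < k ∧ s k ≠ 0) → (∃ k, r < k ∧ s k ≠ b - 1) → ∀ n : ℕ,
        (n : ℝ) ≤ C * ((((places b ξ s n).card : ℝ) ^ A.natDegree + 1) * (p + r))) ∧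
    -- the binary digits of the square root of two
    (∃ C : ℝ, 0 < C ∧ ∀ y : ℚ, (¬ ∃ j : ℕ, y.den = 2 ^ j) → ∀ n : ℕ,
      (n : ℝ) ≤ C * (((((Icc 1 n).filter fun k => dig 2 √2 k ≠ dig 2 y k).card : ℝ) ^ 2 + 1) *
        Real.log y.den) ∧
      (n : ℝ) ≤ C * (((((Icc 1 n).filter fun k => dig 2 √2 k = dig 2 y k).card : ℝ) ^ 2 + 1) *
        Real.log y.den)) := by
  refine ⟨?_, ?_, ?_⟩
  · intro A ξ hA hξ
    obtain ⟨C, hC, h⟩ := gen A hA ξ hξ
    refine ⟨C, hC, ?_⟩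
    intro b y s hb hm hs hsum n
    have h1 := h b y s hb hm hs (tail b hb s hs y hsum) n
    exact ⟨h1.2, h1.1⟩
  · intro A ξ hA hξ
    obtain ⟨C, hC, h⟩ := gen A hA.ne_zero ξ hξ
    refine ⟨2 * C, by positivity, ?_⟩
    intro b s p r hb hp hs hper h0 h1 n
    obtain ⟨y, ⟨m, hm1, hm2, hm3⟩, hden, happ⟩ := periodic b hb s p r hp hs hper h0 h1
    have h2 := (h b y s hb ⟨m, hm1, hm2, by
      rw [hA.leadingCoeff]
      intro h5
      have := Int.natAbs_dvd_natAbs.2 h5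
      apply hm3
      simpa using this⟩ (fun k => by
        rw [abs_of_nonneg (hs k).1]; exact (hs k).2.le) happ n).2
    have hb1 : (1 : ℝ) < b := by exact_mod_cast (by omega : 1 < b)
    have hlb : 0 < Real.log b := Real.log_pos hb1
    have h3 : Real.log (b * y.den) ≤ (p + r) * 2 * Real.log b := by
      have h4 : ((b : ℝ) * y.den) ≤ (b : ℝ) ^ (r + p + 1) := by
        rw [pow_succ, mul_comm]
        apply mul_le_mul_of_nonneg_right _ (by positivity)
        exact_mod_cast hden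
      have h5 : (0 : ℝ) < (b : ℝ) * y.den := by
        have : (0 : ℝ) < y.den := by exact_mod_cast y.den_pos
        positivity
      have h6 := Real.log_le_log h5 h4
      rw [Real.log_pow] at h6
      refine h6.trans ?_
      apply mul_le_mul_of_nonneg_right _ hlb.le
      push_cast
      have h7 : (1 : ℝ) ≤ p := by exact_mod_cast hp
      have h8 : (0 : ℝ) ≤ r := Nat.cast_nonneg r
      linarith
    have h4 : (n : ℝ) * Real.log b ≤ C * ((((places b ξ s n).card : ℝ) ^ A.natDegree + 1) *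
        ((p + r) * 2 * Real.log b)) := by
      refine h2.trans ?_
      apply mul_le_mul_of_nonneg_left _ hC.le
      exact mul_le_mul_of_nonneg_left h3 (by positivity)
    have h5 : (n : ℝ) * Real.log b ≤
        (2 * C * ((((places b ξ s n).card : ℝ) ^ A.natDegree + 1) * (p + r))) * Real.log b := by
      refine h4.trans (le_of_eq ?_)
      ring
    exact le_of_mul_le_mul_right h5 hlb
  · obtain ⟨C, hC, h⟩ := gen (X ^ 2 - C 2) sqrt_two_monic.ne_zero √2 sqrt_two_root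
    have hl2 : 0 < Real.log 2 := Real.log_pos (by norm_num)
    refine ⟨2 * C / Real.log 2, by positivity, ?_⟩
    have key : ∀ y : ℚ, (¬ ∃ j : ℕ, y.den = 2 ^ j) → ∀ n : ℕ,
        (n : ℝ) ≤ 2 * C / Real.log 2 *
          (((((Icc 1 n).filter fun k => dig 2 √2 k ≠ dig 2 y k).card : ℝ) ^ 2 + 1) *
          Real.log y.den) := by
      intro y hy n
      obtain ⟨y', hden, happ⟩ := dig_rat 2 le_rfl y
      obtain ⟨m, hm1, hm2, hm3⟩ := odd_part y hy
      have h1 := (h 2 y' (dig 2 y) le_rfl ⟨m, by rw [hden]; exact hm1, hm2, by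
        rw [sqrt_two_monic.leadingCoeff]; exact hm3⟩ (fun k => by
          have h2 := digit_nonneg 2 le_rfl (y : ℝ) k
          have h3 := digit_lt 2 le_rfl (y : ℝ) k
          have h4 : dig 2 (y : ℝ) k = digit 2 (y : ℝ) k := rfl
          rw [h4, abs_of_nonneg h2]; exact h3.le) happ n).2
      rw [sqrt_two_degree, hden] at h1
      have h2 : (Diff 2 √2 (dig 2 (y : ℝ)) n) =
        ((Icc 1 n).filter fun k => dig 2 √2 k ≠ dig 2 (y : ℝ) k) := rfl
      rw [h2] at h1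
      have h3 : (2 : ℝ) ≤ y.den := by
        have h4 : y.den ≠ 1 := fun h5 => hy ⟨0, by simpa using h5⟩
        have h5 := y.den_pos
        exact_mod_cast (by omega : 2 ≤ y.den)
      have h4 : Real.log (((2 : ℕ) : ℝ) * y.den) ≤ 2 * Real.log y.den := by
        rw [Real.log_mul (by norm_num) (by positivity)]
        have := Real.log_le_log (by norm_num) h3
        push_cast
        linarith
      have h5 : (n : ℝ) * Real.log 2 ≤ C *
          (((((Icc 1 n).filter fun k => dig 2 √2 k ≠ dig 2 (y : ℝ) k).card : ℝ) ^ 2 + 1) *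
          (2 * Real.log y.den)) := by
        have h6 : (n : ℝ) * Real.log 2 = (n : ℝ) * Real.log ((2 : ℕ) : ℝ) := by norm_num
        rw [h6]
        refine h1.trans ?_
        apply mul_le_mul_of_nonneg_left _ hC.le
        exact mul_le_mul_of_nonneg_left h4 (by positivity)
      rw [div_mul_eq_mul_div, le_div_iff₀ hl2]
      refine h5.trans (le_of_eq ?_)
      ring
    intro y hy n
    refine ⟨key y hy n, ?_⟩
    have hy' : ¬ ∃ j : ℕ, (-y).den = 2 ^ j := by rwa [Rat.neg_den]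
    have h1 := key (-y) hy' n
    rw [Rat.neg_den] at h1
    have h2 : ((Icc 1 n).filter fun k => dig 2 √2 k ≠ dig 2 ((-y : ℚ) : ℝ) k) =
        ((Icc 1 n).filter fun k => dig 2 √2 k = dig 2 (y : ℝ) k) := by
      apply filter_congr
      intro k _
      rw [dig_neg y hy k]
      have h3 := digit_nonneg 2 le_rfl (y : ℝ) k
      have h4 := digit_lt 2 le_rfl (y : ℝ) k
      have h5 := digit_nonneg 2 le_rfl √2 k
      have h6 := digit_lt 2 le_rfl √2 k
      have h7 : dig 2 (y : ℝ) k = digit 2 (y : ℝ) k := rfl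
      have h8 : dig 2 √2 k = digit 2 √2 k := rfl
      rw [h7, h8]
      push_cast at h4 h6
      omega
    rwa [h2] at h1

end Pool.Agent.Results.MP_0308e6_nt.DistanceToRationals
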