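import Pool.Agent.N586.KO.Tn4
import Pool.Agent.N586.JT.Bw
import Pool.Agent.N586.JT.Bt
import Pool.Agent.N586.GF.Sum3
import Pool.Agent.N586.GF.FrFin

/-!
# Nearly all elements of `ℚ(√2)` are normal up to `(log H) ^ (3 / 2 - ε)` digits

Let `δ, β > 0` with `2 δ + β < 1`. We show that nearly all elements of the field `ℚ(√2)`, ordered by
height, behave in their digits between `C log H` and `(log H) ^ (1 + δ)` like random numbers, together
with all their multiples by small elements of the field: for EVERY numerator `a + b √2 ≠ 0` and every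
`v` with `|a|, |b|, |v| ≤ H`, for all integers `|u| ≤ H` but at most `H exp (-(log H) ^ β)`, all numbers
`g / f * (a + b √2) / (u + v √2)` with nonzero `g, f ∈ ℤ[√2]` with coefficients at most
`exp ((log H) ^ β)` have in every base `b ≤ B` all digit blocks with the right frequency in all these
windows, and the same is true for the pairs of two such numbers with linearly independent `g₁, g₂`.
An example (`v = 0`) are the rational multiples `a / u * √2`, for every `a ≤ H` and nearly all `u ≤ H`.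
Here `√2` can be replaced by every `√m`, `m` not a square.

Proof. The exponential sums over `u` of `e(θ / (u + v √2))` are bounded by Vinogradov's method for all
`θ` up to `exp ((log H) ^ (1 + δ))`. They are applied to
`θ = b ^ n * x`, `x = ∑ h_j g_j / f * (a + b √2)`, which is at least a power of `1 / H` because the norm
of a nonzero element of `ℤ[√2]` is at least `1`. These are the Fourier coefficients of the joint
distribution of the tuples, and a large deviation argument gives all windows with an exceptional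
proportion which is smaller than the inverse of the number of the tuples.
-/

set_option autoImplicit false

namespace Pool.Agent.Results.MP_0308e6_nt.FieldOfSqrtTwo

/-- the word of the `k` digits in base `b` of `y` which follow the first `n` digits after the point,
read as an integer between `0` and `b ^ k - 1` -/
noncomputable def word (b k n : ℕ) (y : ℝ) : ℕ :=
  ⌊(b : ℝ) ^ k * Int.fract ((b : ℝ) ^ n * y)⌋₊

/-- in every base `2 ≤ b ≤ B` every `r × k` digit matrix, `k ≥ 1` (row `j` is the word `D j` of `y j`),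
occurs `N / b ^ (k r)` times, up to `ε N + E`, at the `N` places `s, …, s + N - 1`, for every window
with `L₀ ≤ s` and `s + N ≤ L` -/
def NormalIn {r : ℕ} (B : ℕ) (L₀ L ε E : ℝ) (y : Fin r → ℝ) : Prop :=
  ∀ (b k s N : ℕ) (D : Fin r → ℕ), 2 ≤ b → b ≤ B → 1 ≤ k → (∀ j, D j < b ^ k) →
    L₀ ≤ s → (s : ℝ) + N ≤ L →
    |(({i : ℕ | i < N ∧ ∀ j, word b k (s + i) (y j) = D j}.ncard : ℕ) : ℝ) -
      N / ((b : ℝ) ^ k) ^ r| ≤ ε * N + E

theorem normalIn_of {r B n0 : ℕ} {L₀ L ε E : ℝ} {y : Fin r → ℝ} (hn0 : n0 = ⌈L₀⌉₊)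
    (h : Pool.Agent.N586.GF.NwA B n0 L ε E y) : NormalIn B L₀ L ε E y := by
  classical
  intro b k s N D hb hbB hk hD hs hsN
  have h1 := h b k hb hbB k s N D hk le_rfl hD (by rw [hn0]; exact Nat.ceil_le.2 hs) hsN
  have h2 : {i : ℕ | i < N ∧ ∀ j, word b k (s + i) (y j) = D j} =
      (((Finset.range N).filter
        (fun i => ∀ j, Pool.Agent.Y933.KD.wd b k (s + i) (y j) = D j) : Finset ℕ) : Set ℕ) := by
    ext i
    simp only [Set.mem_ofPred_eq, Finset.coe_filter, Finset.mem_range]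
    rfl
  rw [h2, Set.ncard_coe_finset]
  exact h1

/-- the number `p.1 + p.2 √m` -/
noncomputable def el (m : ℕ) (p : ℤ × ℤ) : ℝ := p.1 + p.2 * √m

/-- the coefficients of `g j` and `f` are at most `V`, `f ≠ 0` and the `g j` are linearly
independent -/
def Small {r : ℕ} (V : ℝ) (g : Fin r → ℤ × ℤ) (f : ℤ × ℤ) : Prop :=
  (∀ j, |((g j).1 : ℝ)| ≤ V ∧ |((g j).2 : ℝ)| ≤ V) ∧ |(f.1 : ℝ)| ≤ V ∧ |(f.2 : ℝ)| ≤ V ∧ f ≠ 0 ∧
    LinearIndependent ℤ g

/-- the coefficients of an element of `ℤ[√m]` as a vector -/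
def vec (p : ℤ × ℤ) : Fin (1 + 1) → ℤ := ![p.1, p.2]

lemma ev_vec (m : ℕ) (p : ℤ × ℤ) : Pool.Agent.N586.GF.ev (√m) (vec p) = el m p := by
  simp [Pool.Agent.N586.GF.ev, vec, el, Fin.sum_univ_two]

lemma measV_sqrt {m : ℕ} (hm : ¬ IsSquare m) : Pool.Agent.N586.GF.MeasV (√m) 1 := by
  have hirr : Irrational (√(m : ℝ)) := irrational_sqrt_natCast_iff.2 hm
  have hs0 : (0 : ℝ) ≤ √(m : ℝ) := Real.sqrt_nonneg _
  refine ⟨1, 1 / (1 + √(m : ℝ)), zero_le_one, by positivity, fun p hp X hX hpX => ?_⟩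
  have hev : Pool.Agent.N586.GF.ev (√m) p = p 0 + p 1 * √m := by
    simp [Pool.Agent.N586.GF.ev, Fin.sum_univ_two]
  have hne : ∀ a b : ℤ, (a : ℝ) + b * √m = 0 → a = 0 ∧ b = 0 := by
    intro a b h
    have hb : b = 0 := by
      by_contra hb
      apply hirr
      have hbR : (b : ℝ) ≠ 0 := by exact_mod_cast hb
      refine ⟨-(a : ℚ) / b, ?_⟩
      push_cast
      field_simp
      linarith
    refine ⟨?_, hb⟩
    rw [hb] at h
    simpa using h
  have h1 : (p 0 : ℝ) + p 1 * √m ≠ 0 := by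
    intro h
    obtain ⟨h2, h3⟩ := hne _ _ h
    apply hp
    funext i
    fin_cases i
    · exact h2
    · exact h3
  have h2 : (p 0 : ℝ) - p 1 * √m ≠ 0 := by
    intro h
    have h' : (p 0 : ℝ) + ((-p 1 : ℤ) : ℝ) * √m = 0 := by
      push_cast
      linarith
    obtain ⟨h3, h4⟩ := hne _ _ h'
    apply hp
    funext i
    fin_cases i
    · exact h3
    · show p 1 = 0
      omega
  have h3 : ((p 0 : ℝ) + p 1 * √m) * ((p 0 : ℝ) - p 1 * √m) =
      ((p 0 ^ 2 - m * p 1 ^ 2 : ℤ) : ℝ) := by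
    have h4 : √(m : ℝ) * √(m : ℝ) = m := Real.mul_self_sqrt (Nat.cast_nonneg m)
    push_cast
    linear_combination (-(p 1 : ℝ) ^ 2) * h4
  have h4 : (p 0 ^ 2 - m * p 1 ^ 2 : ℤ) ≠ 0 := by
    intro h5
    rw [h5, Int.cast_zero] at h3
    exact (mul_ne_zero h1 h2) h3
  have h5 : (1 : ℝ) ≤ |((p 0 ^ 2 - m * p 1 ^ 2 : ℤ) : ℝ)| := by
    have := Int.one_le_abs h4
    exact_mod_cast this
  rw [← h3, abs_mul] at h5
  have h6 : |(p 0 : ℝ) - p 1 * √m| ≤ X * (1 + √m) := by
    calc |(p 0 : ℝ) - p 1 * √m| ≤ |(p 0 : ℝ)| + |(p 1 : ℝ) * √m| := abs_sub _ _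
      _ = |(p 0 : ℝ)| + |(p 1 : ℝ)| * √m := by rw [abs_mul, abs_of_nonneg hs0]
      _ ≤ X + X * √m := add_le_add (hpX 0) (mul_le_mul_of_nonneg_right (hpX 1) hs0)
      _ = _ := by ring
  rw [hev, Real.rpow_one, div_le_iff₀ (by positivity)]
  calc (1 : ℝ) ≤ |(p 0 : ℝ) + p 1 * √m| * |(p 0 : ℝ) - p 1 * √m| := h5
    _ ≤ |(p 0 : ℝ) + p 1 * √m| * (X * (1 + √m)) := mul_le_mul_of_nonneg_left h6 (abs_nonneg _)
    _ = _ := by ring

/-- Let `δ, β > 0`, `2 δ + β < 1`, `ε > 0`, `B` and `r ≥ 1` be given, and let `m` be a natural number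
which is not a square, for instance `m = 2`. There is `C` such that for all large `H`, for all integers
`a, b, v` with `|a|, |b|, |v| ≤ H` and `(a, b) ≠ (0, 0)`, for all integers `u` with `|u| ≤ H` but at most
`H exp (-(log H) ^ β)`, one has `u + v √m ≠ 0` and for all `Small (exp ((log H) ^ β))` `g`, `f` the tuple
`(g j / f) * (a + b √m) / (u + v √m)`, `j = 1, …, r`, satisfies
`NormalIn B (C log H) ((log H) ^ (1 + δ)) ε (ε log H)`. -/
theorem result (δ β ε : ℝ) (B r : ℕ) (hδ : 0 < δ) (hβ : 0 < β) (hδβ : 2 * δ + β < 1) (hε : 0 < ε)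
    (hr : 1 ≤ r) (m : ℕ) (hm : ¬ IsSquare m) :
    ∃ C : ℝ, 0 < C ∧ ∃ H₀ : ℕ, ∀ H : ℕ, H₀ ≤ H → ∀ a b v : ℤ, (a ≠ 0 ∨ b ≠ 0) → |a| ≤ H →
      |b| ≤ H → |v| ≤ H →
      (({u : ℤ | |u| ≤ H ∧ ¬ (el m (u, v) ≠ 0 ∧ ∀ (g : Fin r → ℤ × ℤ) (f : ℤ × ℤ),
        Small (Real.exp ((Real.log H) ^ β)) g f →
        NormalIn B (C * Real.log H) ((Real.log H) ^ (1 + δ)) ε (ε * Real.log H)
          (fun j => el m (g j) / el m f * (el m (a, b) / el m (u, v))))}.ncard : ℕ) : ℝ) ≤
        H * Real.exp (-(Real.log H) ^ β) := by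
  classical
  set β' : ℝ := (β + (1 - 2 * δ)) / 2 with hβ'
  have hβ'1 : β < β' := by rw [hβ']; linarith
  obtain ⟨C, hC, H₀, h⟩ := Pool.Agent.N586.GF.fr_fix
    (Pool.Agent.N586.GF.sum3 Pool.Agent.N586.KO.tn4)
    (Pool.Agent.N586.JT.bt Pool.Agent.N586.JT.bw) (√m) 1 1 r B (measV_sqrt hm) (measV_sqrt hm)
    δ β' hδ (by linarith) (by rw [hβ']; linarith) hr ε hε
  have hlog : Filter.Tendsto (fun H : ℕ => Real.log H) Filter.atTop Filter.atTop :=
    Real.tendsto_log_atTop.comp tendsto_natCast_atTop_atTop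
  have hev : ∀ᶠ H : ℕ in Filter.atTop, (Real.log H) ^ β + Real.log 2 ≤ (Real.log H) ^ β' := by
    have h1 : Filter.Tendsto (fun H : ℕ => (Real.log H) ^ β) Filter.atTop Filter.atTop :=
      (tendsto_rpow_atTop hβ).comp hlog
    have h2 : Filter.Tendsto (fun H : ℕ => (Real.log H) ^ (β' - β)) Filter.atTop Filter.atTop :=
      (tendsto_rpow_atTop (by linarith)).comp hlog
    filter_upwards [h1.eventually_ge_atTop (Real.log 2), h2.eventually_ge_atTop 2,
      hlog.eventually_gt_atTop 0] with H h3 h4 h5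
    have h6 : (Real.log H) ^ β' = (Real.log H) ^ (β' - β) * (Real.log H) ^ β := by
      rw [← Real.rpow_add h5]
      congr 1
      ring
    rw [h6]
    have h7 : 2 * (Real.log H) ^ β ≤ (Real.log H) ^ (β' - β) * (Real.log H) ^ β :=
      mul_le_mul_of_nonneg_right h4 (Real.rpow_nonneg h5.le _)
    linarith
  obtain ⟨H₁, hH₁⟩ := Filter.eventually_atTop.1 hev
  refine ⟨C, hC, max (max H₀ H₁) 3, fun H hH a b v hab ha hb hv => ?_⟩
  have hH3 : 3 ≤ H := (le_max_right _ _).trans hH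
  have hHR : (3 : ℝ) ≤ H := by exact_mod_cast hH3
  have h2 := hH₁ H ((le_max_right _ _).trans ((le_max_left _ _).trans hH))
  have hcast : ∀ x : ℤ, |x| ≤ (H : ℤ) → |(x : ℝ)| ≤ H := by
    intro x hx
    have : ((|x| : ℤ) : ℝ) ≤ ((H : ℤ) : ℝ) := by exact_mod_cast hx
    rwa [Int.cast_abs, Int.cast_natCast] at this
  have h1 := h H ((le_max_left _ _).trans ((le_max_left _ _).trans hH)) (vec (a, b))
    (fun _ => v) (by
      intro h0
      have h3 := congrFun h0 0
      have h4 := congrFun h0 1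
      simp only [vec, Matrix.cons_val_zero, Matrix.cons_val_one, Pi.zero_apply] at h3 h4
      rcases hab with h5 | h5
      · exact h5 h3
      · exact h5 h4) (by
      intro i
      fin_cases i
      · exact hcast a ha
      · exact hcast b hb) (fun _ => hcast v hv)
  have hVV : Real.exp ((Real.log H) ^ β) ≤ Real.exp ((Real.log H) ^ β') := by
    apply Real.exp_le_exp.2
    have : (0 : ℝ) ≤ Real.log 2 := Real.log_nonneg (by norm_num)
    linarith
  have hcons : ∀ u : ℤ, Pool.Agent.N586.GF.ev (√m) (Fin.cons u (fun _ : Fin 1 => v) :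
      Fin (1 + 1) → ℤ) = el m (u, v) := by
    intro u
    rw [← ev_vec]
    congr 1
    funext i
    fin_cases i <;> rfl
  have h3 : (({u : ℤ | |u| ≤ H ∧ ¬ (el m (u, v) ≠ 0 ∧ ∀ (g : Fin r → ℤ × ℤ) (f : ℤ × ℤ),
        Small (Real.exp ((Real.log H) ^ β)) g f →
        NormalIn B (C * Real.log H) ((Real.log H) ^ (1 + δ)) ε (ε * Real.log H)
          (fun j => el m (g j) / el m f * (el m (a, b) / el m (u, v))))}.ncard : ℕ) : ℝ) ≤
      1 / 2 * ((2 * H + 1) * Real.exp (-(Real.log H) ^ β')) := by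
    refine le_trans (Nat.cast_le.2 ?_) h1
    rw [← Set.ncard_coe_finset]
    refine Set.ncard_le_ncard ?_ (Finset.finite_toSet _)
    rintro u ⟨hu, hu2⟩
    rw [Finset.mem_coe, Finset.mem_filter, Finset.mem_Icc]
    refine ⟨abs_le.1 hu, fun hG => hu2 ?_⟩
    obtain ⟨hG1, hG2⟩ := hG
    rw [hcons] at hG1
    refine ⟨hG1, fun g f hgf => ?_⟩
    obtain ⟨hg, hf1, hf2, hf0, hind⟩ := hgf
    have h4 := hG2 (fun j => vec (g j)) (vec f) ⟨?_, ?_, ?_, ?_⟩
    · rw [hcons] at h4
      simp only [ev_vec] at h4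
      exact normalIn_of rfl h4
    · intro j i
      fin_cases i
      · exact (hg j).1.trans hVV
      · exact (hg j).2.trans hVV
    · intro i
      fin_cases i
      · exact hf1.trans hVV
      · exact hf2.trans hVV
    · intro h0
      apply hf0
      have h5 := congrFun h0 0
      have h6 := congrFun h0 1
      simp only [vec, Matrix.cons_val_zero, Matrix.cons_val_one, Pi.zero_apply] at h5 h6
      exact Prod.ext h5 h6
    · have h5 := hind.map' (LinearEquiv.finTwoArrow ℤ ℤ).symm.toLinearMap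
        (LinearEquiv.ker _)
      exact h5
  refine h3.trans ?_
  have h4 : Real.exp (-(Real.log H) ^ β') ≤ Real.exp (-(Real.log H) ^ β) / 2 := by
    rw [show Real.exp (-(Real.log H) ^ β) / 2 = Real.exp (-(Real.log H) ^ β - Real.log 2) by
      rw [Real.exp_sub, Real.exp_log (by norm_num)]]
    apply Real.exp_le_exp.2
    linarith
  have h5 : 0 < Real.exp (-(Real.log H) ^ β) := Real.exp_pos _
  calc 1 / 2 * ((2 * H + 1) * Real.exp (-(Real.log H) ^ β'))
      ≤ 1 / 2 * ((2 * H + 1) * (Real.exp (-(Real.log H) ^ β) / 2)) := by gcongr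
    _ ≤ H * Real.exp (-(Real.log H) ^ β) := by nlinarith

end Pool.Agent.Results.MP_0308e6_nt.FieldOfSqrtTwo
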