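import Pool.Agent.N440.MT.Fin

/-!
# Binary normality of `√2` from simple normality of the numbers `m √2 + 1/7`

A real number `x` is normal in base `2` if and only if all the numbers `m x + 1/7`, `m` a nonzero integer,
are simply normal in base `2`, and also if and only if all the numbers `m x` and `m x + 1/7`, `m ≥ 1`, are
simply normal in base `2`. (The multiples `m x` alone do not suffice: the Thue–Morse number.) The
denominators `d` for which the translates `m x + a/d` suffice are exactly those which divide no sum of two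
powers of two. This is the case of single binary digits, left out in
`MP_57632f_nt.SimplyNormalMultiples` (helper915, whose analytic part is used here).
-/

set_option autoImplicit false

namespace Pool.Agent.Results.MP_0308e6_nt.TranslatesByOneSeventh

open Filter Topology

/-- the number of ones among the first `N` binary digits of `x` after the point -/
noncomputable def ones (x : ℝ) (N : ℕ) : ℕ :=
  ((Finset.Icc 1 N).filter fun i => ⌊x * 2 ^ i⌋ % 2 = 1).card

/-- `x` is simply normal in base `2`: the ones have the frequency `1/2` among the binary digits -/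
def SimplyNormal (x : ℝ) : Prop :=
  Tendsto (fun N : ℕ => (ones x N : ℝ) / (N : ℝ)) atTop (𝓝 (1 / 2))

/-- the number of places `1 ≤ i ≤ N` at which the word `w_0 … w_(k-1)` begins in the binary expansion of
`x` -/
noncomputable def occ (x : ℝ) (k : ℕ) (w : ℕ → ℤ) (N : ℕ) : ℕ :=
  ((Finset.Icc 1 N).filter fun i => ∀ j < k, ⌊x * 2 ^ (i + j)⌋ % 2 = w j).card

/-- `x` is normal in base `2`: each word of `k` binary digits has the frequency `2 ^ (-k)` -/
def Normal (x : ℝ) : Prop := ∀ (k : ℕ) (w : ℕ → ℤ), (∀ j < k, w j = 0 ∨ w j = 1) →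
  Tendsto (fun N : ℕ => (occ x k w N : ℝ) / (N : ℝ)) atTop (𝓝 (1 / 2 ^ k))

/-- (1) A real `x` (for instance `√2`) is normal in base `2` if and only if `m x + 1/7` is simply normal in
base `2` for all nonzero integers `m`, and if and only if `m x` and `m x + 1/7` are simply normal in base
`2` for all integers `m ≥ 1`. (2) The same with `1/d` in place of `1/7` for every odd `d` such that `-1` is
not congruent to a power of `2` modulo `d` but each `j`, `1 ≤ j < d`, is congruent to a power of `2` or to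
the negative of a power of `2` (`d = 7, 23, 47, 71, 79, …`).
(3) If `d ≥ 1` divides no sum `2^u + 2^v`, then every real `x` is normal in base `2` if and only if
`m x + a/d` is simply normal in base `2` for all `m ≥ 1`, `1 ≤ a < d`. (4) If `d` divides some sum
`2^u + 2^v`, then this fails: there is an `x` which is not normal in base `2` such that `m x + a/d` is
simply normal in base `2` for all integers `m ≠ 0` and all integers `a`.
(5) At one stage: for `d` as in (3) and `ε > 0` there are `Q`, `δ > 0`, `N₀` such that for all real `x` and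
all `N ≥ N₀`: if there are `N/2` ones up to `δ N` among the first `N` digits of each of the numbers
`m x + a/d`, `1 ≤ m ≤ Q`, `0 ≤ a < d`, then all words of all lengths `k` begin at `N / 2^k` places up to
`ε N` among the first `N` places of `x`. -/
theorem result :
    ((∀ x : ℝ, (Normal x ↔ ∀ m : ℤ, m ≠ 0 → SimplyNormal (m * x + 1 / 7)) ∧
        (Normal x ↔ ∀ m : ℕ, 1 ≤ m → SimplyNormal (m * x) ∧ SimplyNormal (m * x + 1 / 7))) ∧
      (Normal (√2) ↔ ∀ m : ℤ, m ≠ 0 → SimplyNormal (m * √2 + 1 / 7))) ∧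
    (∀ d : ℕ, Odd d → (∀ s : ℕ, ¬ d ∣ 2 ^ s + 1) →
      (∀ j : ℕ, 1 ≤ j → j < d → ∃ i : ℕ, 2 ^ i ≡ j [MOD d] ∨ d ∣ 2 ^ i + j) → ∀ x : ℝ,
        (Normal x ↔ ∀ m : ℤ, m ≠ 0 → SimplyNormal (m * x + 1 / d)) ∧
        (Normal x ↔ ∀ m : ℕ, 1 ≤ m → SimplyNormal (m * x) ∧ SimplyNormal (m * x + 1 / d))) ∧
    (∀ d : ℕ, 1 ≤ d → (∀ u v : ℕ, ¬ d ∣ 2 ^ u + 2 ^ v) → ∀ x : ℝ,
      (Normal x ↔ ∀ m : ℕ, 1 ≤ m → ∀ a : ℕ, 1 ≤ a → a < d → SimplyNormal (m * x + a / d))) ∧
    (∀ d : ℕ, 1 ≤ d → (∃ u v : ℕ, d ∣ 2 ^ u + 2 ^ v) →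
      ∃ x : ℝ, ¬ Normal x ∧ ∀ m : ℤ, m ≠ 0 → ∀ a : ℤ, SimplyNormal (m * x + a / d)) ∧
    (∀ d : ℕ, 1 ≤ d → (∀ u v : ℕ, ¬ d ∣ 2 ^ u + 2 ^ v) → ∀ ε : ℝ, 0 < ε →
      ∃ Q : ℕ, 1 ≤ Q ∧ ∃ δ : ℝ, 0 < δ ∧ ∃ N₀ : ℕ, ∀ (x : ℝ) (N : ℕ), N₀ ≤ N →
        (∀ m : ℕ, 1 ≤ m → m ≤ Q → ∀ a : ℕ, a < d →
          |(ones (m * x + a / d) N : ℝ) - N / 2| ≤ δ * N) →
        ∀ (k : ℕ) (w : ℕ → ℤ), (∀ j < k, w j = 0 ∨ w j = 1) →
          |(occ x k w N : ℝ) - N / 2 ^ k| ≤ ε * N) := by
  have h7 : ∀ x : ℝ, (Normal x ↔ ∀ m : ℤ, m ≠ 0 → SimplyNormal (m * x + 1 / 7)) ∧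
      (Normal x ↔ ∀ m : ℕ, 1 ≤ m → SimplyNormal (m * x) ∧ SimplyNormal (m * x + 1 / 7)) := by
    intro x
    have h := Pool.Agent.N440.MT.part_three 7 (by decide) Pool.Agent.N440.MT.neg_seven
      Pool.Agent.N440.MT.cov_seven x
    push_cast at h
    exact h
  exact ⟨⟨h7, (h7 (√2)).1⟩, fun d hodd hneg hcov x => Pool.Agent.N440.MT.part_three d hodd hneg hcov x,
    fun d hd h x => Pool.Agent.N440.MT.part_one d hd h x,
    fun d hd h => Pool.Agent.N440.MT.part_two d hd h,
    fun d hd h ε hε => Pool.Agent.N440.MT.part_four d hd h ε hε⟩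

end Pool.Agent.Results.MP_0308e6_nt.TranslatesByOneSeventh
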